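import Mathlib

/-!
# Infinitary products of Boolean algebras: definitions

`m`, `n` are cardinals; everything lives in `Type`.
-/

open Cardinal

namespace Q16.BProd

/-- A Boolean `m`-algebra: all joins and meets of at most `m` elements exist. -/
def IsMAlgebra (m : Cardinal.{0}) (B : Type) [BooleanAlgebra B] : Prop :=
  ∀ S : Set B, #S ≤ m → (∃ b, IsLUB S b) ∧ (∃ b, IsGLB S b)

/-- The Boolean homomorphism `h` is an `m`-homomorphism: it preserves every existing join and
every existing meet of at most `m` elements. -/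
def IsMHom (m : Cardinal.{0}) {A B : Type} [BooleanAlgebra A] [BooleanAlgebra B]
    (h : BoundedLatticeHom A B) : Prop :=
  ∀ S : Set A, #S ≤ m → ∀ a : A,
    (IsLUB S a → IsLUB (h '' S) (h a)) ∧ (IsGLB S a → IsGLB (h '' S) (h a))

/-- The set `G` generates the Boolean `m`-algebra `B`: every subset of `B` that contains `G` and is
closed under complements and under joins of at most `m` elements is all of `B`. -/
def MGenerates (m : Cardinal.{0}) {B : Type} [BooleanAlgebra B] (G : Set B) : Prop :=
  ∀ C : Set B, G ⊆ C → (∀ c ∈ C, cᶜ ∈ C) →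
    (∀ S : Set B, S ⊆ C → #S ≤ m → ∀ b, IsLUB S b → b ∈ C) → C = Set.univ

/-- Boolean `(m,0)`-products `({i_t}, B)` of the family `A`: `B` is a Boolean `m`-algebra, every
`i_t` is an injective `m`-homomorphism, finite meets of non-zero elements of the different factors
are non-zero, and the images of the factors generate `B` as a Boolean `m`-algebra. -/
structure IsProductZero (m : Cardinal.{0}) {T : Type} (A : T → Type)
    [∀ t, BooleanAlgebra (A t)] (B : Type) [BooleanAlgebra B]
    (i : ∀ t, BoundedLatticeHom (A t) B) : Prop where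
  algebra : IsMAlgebra m B
  mhom : ∀ t, IsMHom m (i t)
  injective : ∀ t, Function.Injective (i t)
  independent : ∀ (F : Finset T) (a : ∀ t, A t), (∀ t ∈ F, a t ≠ ⊥) →
    F.inf (fun t => i t (a t)) ≠ ⊥
  generates : MGenerates m (⋃ t, Set.range (i t))

/-- The meet `⋀_{t ∈ T'} i_t (a_t)` exists and equals `c`. -/
def IsMeetOver {T : Type} {A : T → Type} [∀ t, BooleanAlgebra (A t)] {B : Type} [BooleanAlgebra B]
    (i : ∀ t, BoundedLatticeHom (A t) B) (T' : Set T) (a : ∀ t, A t) (c : B) : Prop :=
  IsGLB ((fun t => i t (a t)) '' T') c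

/-- Boolean `(m,n)`-products: `(m,0)`-products for which the images of the factors are
`n`-independent, i.e. meets over at most `n` indices of non-zero elements of the different factors
exist and are non-zero. -/
structure IsProduct (m n : Cardinal.{0}) {T : Type} (A : T → Type)
    [∀ t, BooleanAlgebra (A t)] (B : Type) [BooleanAlgebra B]
    (i : ∀ t, BoundedLatticeHom (A t) B) : Prop extends IsProductZero m A B i where
  nindependent : ∀ (T' : Set T) (a : ∀ t, A t), #T' ≤ n → (∀ t ∈ T', a t ≠ ⊥) →
    ∃ c : B, IsMeetOver i T' a c ∧ c ≠ ⊥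

/-- Minimal `(m,0)`-products: the finite meets `⋀_{t ∈ T'} i_t (a_t)` are dense, i.e. below every
non-zero element there is a non-zero such meet. -/
structure IsMinimalZero (m : Cardinal.{0}) {T : Type} (A : T → Type)
    [∀ t, BooleanAlgebra (A t)] (B : Type) [BooleanAlgebra B]
    (i : ∀ t, BoundedLatticeHom (A t) B) : Prop extends IsProductZero m A B i where
  dense : ∀ b : B, b ≠ ⊥ → ∃ (F : Finset T) (a : ∀ t, A t),
    F.inf (fun t => i t (a t)) ≠ ⊥ ∧ F.inf (fun t => i t (a t)) ≤ b

/-- Minimal `(m,n)`-products: the meets `⋀_{t ∈ T'} i_t (a_t)` over at most `n` indices are dense,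
i.e. below every non-zero element there is a non-zero such meet. -/
structure IsMinimal (m n : Cardinal.{0}) {T : Type} (A : T → Type)
    [∀ t, BooleanAlgebra (A t)] (B : Type) [BooleanAlgebra B]
    (i : ∀ t, BoundedLatticeHom (A t) B) : Prop extends IsProduct m n A B i where
  dense : ∀ b : B, b ≠ ⊥ → ∃ (T' : Set T) (a : ∀ t, A t) (c : B),
    #T' ≤ n ∧ IsMeetOver i T' a c ∧ c ≠ ⊥ ∧ c ≤ b

/-- `({i'_t}, B') ≤ ({i_t}, B)`: some `m`-homomorphism `h : B → B'` has `i'_t = h ∘ i_t` for all
`t`. -/
def Below (m : Cardinal.{0}) {T : Type} {A : T → Type} [∀ t, BooleanAlgebra (A t)]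
    {B' : Type} [BooleanAlgebra B'] (i' : ∀ t, BoundedLatticeHom (A t) B')
    {B : Type} [BooleanAlgebra B] (i : ∀ t, BoundedLatticeHom (A t) B) : Prop :=
  ∃ h : BoundedLatticeHom B B', IsMHom m h ∧ ∀ t a, i' t a = h (i t a)

end Q16.BProd
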