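import Pool.Agent.Q16.BProd.Two

/-!
# The two-factor example is a product, and nothing maps onto the minimal product
-/

open TopologicalSpace Heyting Heyting.Regular Set Cardinal

noncomputable section

namespace Q16.BProd

section closure

variable {C : Type} [BooleanAlgebra C] {m : Cardinal.{0}} (hm : ℵ₀ ≤ m) {D : Set C}
  (hc : ∀ c ∈ D, cᶜ ∈ D) (hl : ∀ S : Set C, S ⊆ D → #S ≤ m → ∀ b, IsLUB S b → b ∈ D)

include hm hl in
theorem lub_mem {S : Set C} (hS : S ⊆ D) (hcount : S.Countable) {b : C} (hb : IsLUB S b) :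
    b ∈ D :=
  hl S hS ((mk_le_aleph0_iff.2 hcount).trans hm) b hb

include hm hl in
theorem sup_mem' {a b : C} (ha : a ∈ D) (hb : b ∈ D) : a ⊔ b ∈ D := by
  apply lub_mem hm hl (S := {a, b}) _ _ isLUB_pair
  · intro x hx
    rcases hx with rfl | rfl <;> assumption
  · exact (Set.toFinite _).countable

include hm hc hl in
theorem inf_mem' {a b : C} (ha : a ∈ D) (hb : b ∈ D) : a ⊓ b ∈ D := by
  have h := hc _ (sup_mem' hm hl (hc _ ha) (hc _ hb))
  rwa [compl_sup, compl_compl, compl_compl] at h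

include hm hc hl in
theorem glb_mem {S : Set C} (hS : S ⊆ D) (hcount : S.Countable) {b : C} (hb : IsGLB S b) :
    b ∈ D := by
  have h1 : IsLUB (compl '' S) bᶜ := by
    rw [← isGLB_compl_iff, compl_compl, image_image]
    simpa using hb
  have h2 : bᶜ ∈ D := by
    apply lub_mem hm hl _ (hcount.image _) h1
    rintro _ ⟨s, hs, rfl⟩
    exact hc _ (hS hs)
  have h3 := hc _ h2
  rwa [compl_compl] at h3

include hm hc hl in
theorem E_mem {i : Bool → BoundedLatticeHom A C} (hi : ∀ t a, i t a ∈ D) (n : ℕ) (ε : Bool) :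
    E i n ε ∈ D :=
  sup_mem' hm hl (inf_mem' hm hc hl (hi _ _) (hi _ _)) (inf_mem' hm hc hl (hi _ _) (hi _ _))

end closure

/-- Two factors: pairwise independence implies the meet over any set of indices is non-zero. -/
theorem two_meet {C : Type} [BooleanAlgebra C] (i : Bool → BoundedLatticeHom A C)
    (hi : ∀ a b : A, a ≠ ⊥ → b ≠ ⊥ → i false a ⊓ i true b ≠ ⊥)
    (T' : Set Bool) (a : Bool → A) (ha : ∀ t ∈ T', a t ≠ ⊥) :
    ∃ c : C, IsMeetOver (A := fun _ => A) i T' a c ∧ c ≠ ⊥ := by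
  classical
  have htop : (⊤ : A) ≠ ⊥ := by
    intro h
    have : (fun _ => false : X) ∈ (⊥ : A) := by rw [← h]; trivial
    exact this
  let a' : Bool → A := fun t => if t ∈ T' then a t else ⊤
  have ha' : ∀ t, a' t ≠ ⊥ := by
    intro t
    by_cases h : t ∈ T'
    · simp only [a', if_pos h]; exact ha t h
    · simp only [a', if_neg h]; exact htop
  refine ⟨i false (a' false) ⊓ i true (a' true), ⟨?_, ?_⟩, hi _ _ (ha' _) (ha' _)⟩
  · rintro _ ⟨t, ht, rfl⟩
    have h1 : a t = a' t := by simp only [a', if_pos ht]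
    simp only [h1]
    cases t
    · exact inf_le_left
    · exact inf_le_right
  · intro d hd
    have h1 : ∀ t, d ≤ i t (a' t) := by
      intro t
      by_cases h : t ∈ T'
      · simp only [a', if_pos h]; exact hd ⟨t, h, rfl⟩
      · simp only [a', if_neg h, map_top]; exact le_top
    exact le_inf (h1 _) (h1 _)

theorem two_finset {C : Type} [BooleanAlgebra C] (i : Bool → BoundedLatticeHom A C)
    (hi : ∀ a b : A, a ≠ ⊥ → b ≠ ⊥ → i false a ⊓ i true b ≠ ⊥)
    (F : Finset Bool) (a : Bool → A) (ha : ∀ t ∈ F, a t ≠ ⊥) :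
    F.inf (fun t => i t (a t)) ≠ ⊥ := by
  obtain ⟨c, hc, hc0⟩ := two_meet i hi (F : Set Bool) a (by simpa using ha)
  have h : IsGLB ((fun t => i t (a t)) '' (F : Set Bool)) (F.inf (fun t => i t (a t))) := by
    constructor
    · rintro _ ⟨t, ht, rfl⟩
      exact Finset.inf_le (by simpa using ht)
    · intro d hd
      apply Finset.le_inf
      intro t ht
      exact hd ⟨t, by simpa using ht, rfl⟩
  rw [h.unique hc]
  exact hc0

theorem cl_ne_bot {a : A} (ha : a ≠ ⊥) : ∃ x, x ∈ a := by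
  by_contra h
  push Not at h
  apply ha
  ext x
  simp only [SetLike.mem_coe, h x, cl_mem_bot]

theorem opens_ne_bot {Y : Type} [TopologicalSpace Y] {r : RO Y} (y : Y) (hy : y ∈ r.op) :
    r ≠ ⊥ := by
  rintro rfl
  exact hy

/-- Every nonempty clopen set of the Cantor space contains a cylinder depending on the coordinates
below some `N`. -/
theorem exists_cylinder {a : A} {x : X} (hx : x ∈ a) :
    ∃ N : ℕ, ∀ y : X, (∀ k < N, y k = x k) → y ∈ a := by
  have ho : IsOpen (a : Set X) := a.isOpen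
  rw [isOpen_pi_iff] at ho
  obtain ⟨I, u, hu, hsub⟩ := ho x hx
  refine ⟨I.sup id + 1, fun y hy => hsub ?_⟩
  intro k hk
  have hk' : k ≤ I.sup id := Finset.le_sup (f := id) hk
  rw [hy k (by omega)]
  exact (hu k hk).2

theorem indep_B (a b : A) (ha : a ≠ ⊥) (hb : b ≠ ⊥) : iB false a ⊓ iB true b ≠ ⊥ := by
  obtain ⟨x, hx⟩ := cl_ne_bot ha
  obtain ⟨y, hy⟩ := cl_ne_bot hb
  obtain ⟨N, hN⟩ := exists_cylinder hy
  let F : Finset ℕ := (Finset.range N).filter (fun k => x k ≠ y k)
  have hF : flipFun F x ∈ b := by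
    apply hN
    intro k hk
    simp only [flipFun, F, Finset.mem_filter, Finset.mem_range, hk, true_and]
    cases x k <;> cases y k <;> simp
  intro h
  have h1 := congrFun h F
  have h2 : x ∈ (emb (ContinuousMap.id X) a ⊓ emb (flipMap F) b : RO X).op := ⟨hx, hF⟩
  exact opens_ne_bot x h2 h1

theorem isOpenMap_flip (F : Finset ℕ) : IsOpenMap (flipMap F) := (flipHomeo F).isOpenMap

theorem lub_B : ∀ t (S : Set A) (a : A), IsLUB S a → IsLUB (iB t '' S) (iB t a) := by
  intro t S a h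
  cases t
  · exact piEmb_isLUB _ (fun _ => IsOpenMap.id) S a h
  · exact piEmb_isLUB _ isOpenMap_flip S a h

theorem lub_M : ∀ t (S : Set A) (a : A), IsLUB S a → IsLUB (jM t '' S) (jM t a) := by
  intro t S a h
  cases t
  · exact emb_isLUB hasPi_X _ isOpenMap_fst S a h
  · exact emb_isLUB hasPi_X _ isOpenMap_snd S a h

theorem inj_emb {Y : Type} [TopologicalSpace Y] (f : C(Y, X)) (hf : Function.Surjective f) :
    Function.Injective (emb f) := by
  intro a b h
  ext x
  obtain ⟨y, rfl⟩ := hf x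
  have : pull f a = pull f b := congrArg RO.op h
  exact iff_of_eq (congrArg (fun U : Opens Y => y ∈ U) this)

theorem inj_B (t : Bool) : Function.Injective (iB t) := by
  intro a b h
  have h1 := congrFun h ∅
  cases t
  · exact inj_emb (ContinuousMap.id X) Function.surjective_id h1
  · exact inj_emb (flipMap ∅) (flipHomeo ∅).surjective h1

theorem inj_M (t : Bool) : Function.Injective (jM t) := by
  cases t
  · exact inj_emb _ Prod.fst_surjective
  · exact inj_emb _ Prod.snd_surjective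

theorem gen_B {m : Cardinal.{0}} (hm : ℵ₀ ≤ m) : MGenerates m (⋃ t, Set.range (iB t)) := by
  intro D hD hc hl
  have hi : ∀ t a, iB t a ∈ D := fun t a => hD (mem_iUnion.2 ⟨t, a, rfl⟩)
  have hone : ∀ F, one F ∈ D := by
    intro F
    apply glb_mem hm hc hl _ (countable_range _) (isGLB_one F)
    rintro _ ⟨n, rfl⟩
    exact E_mem hm hc hl hi _ _
  apply eq_univ_of_forall
  intro b
  let S : Set B := {s | ∃ p : Finset ℕ × A, emb (ContinuousMap.id X) p.2 ≤ b p.1 ∧
    s = iB false p.2 ⊓ one p.1}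
  have hS : S.Countable := by
    have : S ⊆ range (fun p : Finset ℕ × A => iB false p.2 ⊓ one p.1) := by
      rintro s ⟨p, _, rfl⟩
      exact ⟨p, rfl⟩
    exact (countable_range _).mono this
  have hSD : S ⊆ D := by
    rintro s ⟨p, _, rfl⟩
    exact inf_mem' hm hc hl (hi _ _) (hone _)
  apply lub_mem hm hl hSD hS
  constructor
  · rintro s ⟨p, hp, rfl⟩ F
    change emb (ContinuousMap.id X) p.2 ⊓ one p.1 F ≤ b F
    simp only [one]
    split_ifs with h
    · subst h
      exact inf_le_left.trans hp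
    · rw [inf_bot_eq]; exact bot_le
  · intro c hcS F
    have hpi := isLUB_of_pi (range (emb (ContinuousMap.id X))) (by
      intro W hW
      obtain ⟨d, hd, hdW⟩ := hasPi_X W W.isOpen hW
      refine ⟨_, ⟨d, rfl⟩, ?_, hdW⟩
      obtain ⟨x, hx⟩ := cl_ne_bot hd
      exact opens_ne_bot x hx) (b F)
    apply hpi.2
    rintro _ ⟨⟨a, rfl⟩, ha⟩
    have h := hcS ⟨(F, a), ha, rfl⟩ F
    change emb (ContinuousMap.id X) a ⊓ one F F ≤ c F at h
    simpa [one] using h

theorem box_ne {a b : A} (ha : a ≠ ⊥) (hb : b ≠ ⊥) : jM false a ⊓ jM true b ≠ ⊥ := by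
  obtain ⟨x, hx⟩ := cl_ne_bot ha
  obtain ⟨y, hy⟩ := cl_ne_bot hb
  exact opens_ne_bot (x, y) ⟨hx, hy⟩

theorem pi_M (W : Opens (X × X)) (hW : (W : Set (X × X)).Nonempty) :
    ∃ a b : A, a ≠ ⊥ ∧ b ≠ ⊥ ∧ (jM false a ⊓ jM true b).op ≤ W := by
  obtain ⟨⟨x, y⟩, hxy⟩ := hW
  obtain ⟨U, V, hU, hV, hxU, hyV, hUV⟩ := isOpen_prod_iff.1 W.isOpen x y hxy
  obtain ⟨a, ha, haU⟩ := hasPi_X U hU ⟨x, hxU⟩
  obtain ⟨b, hb, hbV⟩ := hasPi_X V hV ⟨y, hyV⟩
  refine ⟨a, b, ha, hb, ?_⟩
  rintro ⟨p, q⟩ ⟨hp, hq⟩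
  exact hUV ⟨haU hp, hbV hq⟩

theorem gen_M {m : Cardinal.{0}} (hm : ℵ₀ ≤ m) : MGenerates m (⋃ t, Set.range (jM t)) := by
  intro D hD hc hl
  have hi : ∀ t a, jM t a ∈ D := fun t a => hD (mem_iUnion.2 ⟨t, a, rfl⟩)
  apply eq_univ_of_forall
  intro b
  have hpi := isLUB_of_pi (range (fun p : A × A => jM false p.1 ⊓ jM true p.2)) (by
    intro W hW
    obtain ⟨a, b, ha, hb, hab⟩ := pi_M W hW
    exact ⟨_, ⟨(a, b), rfl⟩, box_ne ha hb, hab⟩) b
  apply lub_mem hm hl _ _ hpi
  · rintro _ ⟨⟨p, rfl⟩, _⟩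
    exact inf_mem' hm hc hl (hi _ _) (hi _ _)
  · apply (countable_range (fun p : A × A => jM false p.1 ⊓ jM true p.2)).mono
    rintro _ ⟨h, _⟩
    exact h

theorem exists_isLUB_B (S : Set B) : ∃ b, IsLUB S b := by
  choose f hf using fun F : Finset ℕ => RO.exists_isLUB (Function.eval F '' S)
  exact ⟨f, isLUB_pi.2 hf⟩

theorem zero_B {m : Cardinal.{0}} (hm : ℵ₀ ≤ m) : IsProductZero m (fun _ : Bool => A) B iB where
  algebra := isMAlgebra_of_lub exists_isLUB_B m
  mhom t := isMHom_of_lub (iB t) (lub_B t) m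
  injective := inj_B
  independent F a ha := two_finset iB indep_B F a ha
  generates := gen_B hm

theorem zero_M {m : Cardinal.{0}} (hm : ℵ₀ ≤ m) : IsProductZero m (fun _ : Bool => A) M0 jM where
  algebra := isMAlgebra_of_lub RO.exists_isLUB m
  mhom t := isMHom_of_lub (jM t) (lub_M t) m
  injective := inj_M
  independent F a ha := two_finset jM (fun _ _ => box_ne) F a ha
  generates := gen_M hm

theorem prod_B {m n : Cardinal.{0}} (hm : ℵ₀ ≤ m) : IsProduct m n (fun _ : Bool => A) B iB where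
  toIsProductZero := zero_B hm
  nindependent T' a _ ha := two_meet iB indep_B T' a ha

theorem prod_M {m n : Cardinal.{0}} (hm : ℵ₀ ≤ m) : IsProduct m n (fun _ : Bool => A) M0 jM where
  toIsProductZero := zero_M hm
  nindependent T' a _ ha := two_meet jM (fun _ _ => box_ne) T' a ha

theorem dense_M (b : M0) (hb : b ≠ ⊥) : ∃ a c : A, a ≠ ⊥ ∧ c ≠ ⊥ ∧ jM false a ⊓ jM true c ≤ b := by
  have : (b.op : Set (X × X)).Nonempty := by
    by_contra h
    exact hb (RO.op_inj ((opens_eq_bot_iff _).2 h))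
  obtain ⟨a, c, ha, hc, h⟩ := pi_M b.op this
  exact ⟨a, c, ha, hc, RO.op_le.1 h⟩

theorem minimalZero_M {m : Cardinal.{0}} (hm : ℵ₀ ≤ m) :
    IsMinimalZero m (fun _ : Bool => A) M0 jM where
  toIsProductZero := zero_M hm
  dense b hb := by
    obtain ⟨a, c, ha, hc, h⟩ := dense_M b hb
    refine ⟨Finset.univ, fun t => bif t then c else a, ?_, ?_⟩
    · apply two_finset jM (fun _ _ => box_ne)
      intro t _
      cases t
      · exact ha
      · exact hc
    · refine le_trans ?_ h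
      apply le_inf
      · exact Finset.inf_le (f := fun t => jM t (bif t then c else a)) (Finset.mem_univ false)
      · exact Finset.inf_le (f := fun t => jM t (bif t then c else a)) (Finset.mem_univ true)

theorem minimal_M {m n : Cardinal.{0}} (hn : ℵ₀ ≤ n) (hnm : n ≤ m) :
    IsMinimal m n (fun _ : Bool => A) M0 jM where
  toIsProduct := prod_M (hn.trans hnm)
  dense b hb := by
    obtain ⟨a, c, ha, hc, h⟩ := dense_M b hb
    obtain ⟨d, hd, hd0⟩ := two_meet jM (fun _ _ => box_ne) Set.univ (fun t => bif t then c else a)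
      (by
        intro t _
        cases t
        · exact ha
        · exact hc)
    refine ⟨Set.univ, fun t => bif t then c else a, d, ?_, hd, hd0, ?_⟩
    · exact (mk_le_aleph0_iff.2 (Set.toFinite _).countable).trans hn
    · refine le_trans ?_ h
      apply le_inf
      · exact hd.1 ⟨false, trivial, rfl⟩
      · exact hd.1 ⟨true, trivial, rfl⟩

/-- In a product whose two-factor meets are dense, the elements `x_n + y_n = ε_n` have meet
zero. -/
theorem meet_E_bot {C : Type} [BooleanAlgebra C] (j : Bool → BoundedLatticeHom A C)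
    (hj : ∀ a b : A, a ≠ ⊥ → b ≠ ⊥ → j false a ⊓ j true b ≠ ⊥)
    (hd : ∀ b : C, b ≠ ⊥ → ∃ a c : A, a ≠ ⊥ ∧ c ≠ ⊥ ∧ j false a ⊓ j true c ≤ b)
    (ε : ℕ → Bool) {g : C} (hg : ∀ n, g ≤ E j n (ε n)) : g = ⊥ := by
  by_contra hg0
  obtain ⟨a, c, ha, hc, hac⟩ := hd g hg0
  obtain ⟨x, hx⟩ := cl_ne_bot ha
  obtain ⟨y, hy⟩ := cl_ne_bot hc
  obtain ⟨N, hN⟩ := exists_cylinder hx
  obtain ⟨N', hN'⟩ := exists_cylinder hy
  let n := max N N'
  have h1 : a ⊓ cyl n false ≠ ⊥ := by
    intro h
    have : Function.update x n false ∈ a ⊓ cyl n false := by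
      refine ⟨hN _ fun k hk => ?_, ?_⟩
      · rw [Function.update_of_ne]
        have : N ≤ n := le_max_left _ _
        omega
      · change Function.update x n false n = false
        simp
    rw [h] at this
    exact this
  have h2 : c ⊓ cyl n (!(ε n)) ≠ ⊥ := by
    intro h
    have : Function.update y n (!(ε n)) ∈ c ⊓ cyl n (!(ε n)) := by
      refine ⟨hN' _ fun k hk => ?_, ?_⟩
      · rw [Function.update_of_ne]
        have : N' ≤ n := le_max_right _ _
        omega
      · change Function.update y n (!(ε n)) n = (!(ε n))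
        simp
    rw [h] at this
    exact this
  apply hj _ _ h1 h2
  rw [map_inf, map_inf]
  have h3 : j false a ⊓ j true c ≤ E j n (ε n) := hac.trans (hg n)
  have h4 : cyl n (ε n) ⊓ cyl n (!(ε n)) = ⊥ := by
    cases ε n
    · exact cyl_inf_ne n
    · rw [inf_comm]; exact cyl_inf_ne n
  have h5 : j true (cyl n (ε n)) ⊓ j true (cyl n (!(ε n))) = ⊥ := by
    rw [← map_inf, h4, map_bot]
  have h6 : j false (cyl n false) ⊓ j false (cyl n true) = ⊥ := by
    rw [← map_inf, cyl_inf_ne, map_bot]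
  have h7 : E j n (ε n) ⊓ (j false (cyl n false) ⊓ j true (cyl n (!(ε n)))) = ⊥ := by
    unfold E
    rw [inf_sup_right]
    apply le_bot_iff.1
    apply sup_le
    · calc j false (cyl n false) ⊓ j true (cyl n (ε n)) ⊓
            (j false (cyl n false) ⊓ j true (cyl n (!(ε n))))
          ≤ j true (cyl n (ε n)) ⊓ j true (cyl n (!(ε n))) :=
            inf_le_inf inf_le_right inf_le_right
        _ ≤ ⊥ := h5.le
    · calc j false (cyl n true) ⊓ j true (cyl n (!(ε n))) ⊓
            (j false (cyl n false) ⊓ j true (cyl n (!(ε n))))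
          ≤ j false (cyl n true) ⊓ j false (cyl n false) :=
            inf_le_inf inf_le_left inf_le_left
        _ ≤ ⊥ := by rw [inf_comm]; exact h6.le
  apply le_bot_iff.1
  rw [← h7]
  apply le_inf
  · exact le_trans (le_inf (inf_le_left.trans inf_le_left) (inf_le_right.trans inf_le_left)) h3
  · exact le_inf (inf_le_left.trans inf_le_right) (inf_le_right.trans inf_le_right)

theorem not_below {m : Cardinal.{0}} (hm : ℵ₀ ≤ m) {C : Type} [BooleanAlgebra C]
    (j : Bool → BoundedLatticeHom A C)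
    (hj : ∀ a b : A, a ≠ ⊥ → b ≠ ⊥ → j false a ⊓ j true b ≠ ⊥)
    (hd : ∀ b : C, b ≠ ⊥ → ∃ a c : A, a ≠ ⊥ ∧ c ≠ ⊥ ∧ j false a ⊓ j true c ≤ b) :
    ¬ Below m (A := fun _ => A) j iB := by
  rintro ⟨h, hh, hcomm⟩
  have hE : ∀ n ε, h (E iB n ε) = E j n ε := by
    intro n ε
    simp only [E, map_sup, map_inf, ← hcomm]
  have h1 : ∀ F, h (one F) = ⊥ := by
    intro F
    have hg := (hh _ ((mk_le_aleph0_iff.2 (countable_range
      fun n => E iB n (decide (n ∈ F)))).trans hm) _).2 (isGLB_one F)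
    apply meet_E_bot j hj hd (fun n => decide (n ∈ F))
    intro n
    rw [← hE]
    exact hg.1 ⟨_, ⟨n, rfl⟩, rfl⟩
  have h2 := (hh _ ((mk_le_aleph0_iff.2 (countable_range one)).trans hm) _).1 isLUB_range_one
  have h3 : h ⊤ ≤ ⊥ := by
    apply h2.2
    rintro _ ⟨_, ⟨F, rfl⟩, rfl⟩
    exact (h1 F).le
  rw [map_top] at h3
  have htop : (⊤ : A) ≠ ⊥ := by
    intro h
    have : (fun _ => false : X) ∈ (⊥ : A) := by rw [← h]; trivial
    exact this
  exact hj ⊤ ⊤ htop htop (le_bot_iff.1 (le_top.trans h3))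

theorem univ_inf {C : Type} [BooleanAlgebra C] (f : Bool → C) :
    (Finset.univ : Finset Bool).inf f = f false ⊓ f true := by
  rw [Fintype.univ_bool, Finset.inf_insert, Finset.inf_singleton, inf_comm]

theorem indep_of_zero {m : Cardinal.{0}} {C : Type} [BooleanAlgebra C]
    {j : Bool → BoundedLatticeHom A C} (h : IsProductZero m (fun _ : Bool => A) C j)
    (a b : A) (ha : a ≠ ⊥) (hb : b ≠ ⊥) : j false a ⊓ j true b ≠ ⊥ := by
  have := h.independent Finset.univ (fun t => bif t then b else a) (by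
    intro t _
    cases t
    · exact ha
    · exact hb)
  rw [univ_inf] at this
  exact this

theorem top_ne_bot_A : (⊤ : A) ≠ ⊥ := by
  intro h
  have : (fun _ => false : X) ∈ (⊥ : A) := by rw [← h]; trivial
  exact this

theorem dense_of_set {C : Type} [BooleanAlgebra C]
    {j : Bool → BoundedLatticeHom A C} {b c : C} {T' : Set Bool} {a : Bool → A}
    (hc : IsMeetOver (A := fun _ => A) j T' a c) (hc0 : c ≠ ⊥) (hcb : c ≤ b) :
    ∃ a c : A, a ≠ ⊥ ∧ c ≠ ⊥ ∧ j false a ⊓ j true c ≤ b := by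
  classical
  let a' : Bool → A := fun t => if t ∈ T' then a t else ⊤
  have h1 : ∀ t, c ≤ j t (a' t) := by
    intro t
    by_cases h : t ∈ T'
    · simp only [a', if_pos h]; exact hc.1 ⟨t, h, rfl⟩
    · simp only [a', if_neg h, map_top]; exact le_top
  have h2 : ∀ t, a' t ≠ ⊥ := by
    intro t h
    have := h1 t
    rw [h, map_bot] at this
    exact hc0 (le_bot_iff.1 this)
  refine ⟨a' false, a' true, h2 _, h2 _, le_trans ?_ hcb⟩
  apply hc.2
  rintro _ ⟨t, ht, rfl⟩
  have h3 : a t = a' t := by simp only [a', if_pos ht]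
  simp only [h3]
  cases t
  · exact inf_le_left
  · exact inf_le_right

theorem dense_of_finset {C : Type} [BooleanAlgebra C]
    {j : Bool → BoundedLatticeHom A C} {b : C} {F : Finset Bool} {a : Bool → A}
    (hc0 : F.inf (fun t => j t (a t)) ≠ ⊥) (hcb : F.inf (fun t => j t (a t)) ≤ b) :
    ∃ a c : A, a ≠ ⊥ ∧ c ≠ ⊥ ∧ j false a ⊓ j true c ≤ b := by
  apply dense_of_set (T' := (F : Set Bool)) (a := a) _ hc0 hcb
  constructor
  · rintro _ ⟨t, ht, rfl⟩
    exact Finset.inf_le (by simpa using ht)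
  · intro d hd
    apply Finset.le_inf
    intro t ht
    exact hd ⟨t, by simpa using ht, rfl⟩

end Q16.BProd
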