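import Pool.Agent.Q16.BProd.Defs

/-!
# Regular open algebras
-/

open TopologicalSpace Heyting Heyting.Regular Set

namespace Q16.BProd

section lattice

variable {α : Type} [Order.Frame α]

/-- Regular elements of a frame form a complete Boolean algebra. -/
theorem regular_isLUB (S : Set (Regular α)) :
    IsLUB S (toRegular (sSup ((fun r : Regular α => (r : α)) '' S))) := by
  constructor
  · intro r hr
    rw [← toRegular_coe r]
    exact toRegular.monotone (le_sSup ⟨r, hr, rfl⟩)
  · intro r hr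
    rw [gi.gc.le_iff_le]
    apply sSup_le
    rintro _ ⟨s, hs, rfl⟩
    exact coe_le_coe.2 (hr hs)

end lattice

theorem isGLB_of_compl {B : Type} [BooleanAlgebra B] {S : Set B} {b : B}
    (h : IsLUB (compl '' S) b) : IsGLB S bᶜ := by
  constructor
  · intro s hs
    rw [compl_le_iff_compl_le]
    exact h.1 ⟨s, hs, rfl⟩
  · intro c hc
    rw [le_compl_iff_le_compl]
    apply h.2
    rintro _ ⟨s, hs, rfl⟩
    exact compl_le_compl (hc hs)

theorem isLUB_of_compl {B : Type} [BooleanAlgebra B] {S : Set B} {b : B}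
    (h : IsGLB (compl '' S) b) : IsLUB S bᶜ := by
  constructor
  · intro s hs
    rw [le_compl_iff_le_compl]
    exact h.1 ⟨s, hs, rfl⟩
  · intro c hc
    rw [compl_le_iff_compl_le]
    apply h.2
    rintro _ ⟨s, hs, rfl⟩
    exact compl_le_compl (hc hs)

theorem isGLB_compl_iff {B : Type} [BooleanAlgebra B] {S : Set B} {b : B} :
    IsGLB (compl '' S) bᶜ ↔ IsLUB S b := by
  constructor
  · intro h
    have := isLUB_of_compl h
    rwa [compl_compl] at this
  · intro h
    have h' : IsLUB (compl '' (compl '' S)) b := by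
      rw [image_image]
      simpa using h
    exact isGLB_of_compl h'

/-- Every set with a LUB for all sets also has GLBs. -/
theorem isMAlgebra_of_lub {B : Type} [BooleanAlgebra B] (h : ∀ S : Set B, ∃ b, IsLUB S b)
    (m : Cardinal.{0}) : IsMAlgebra m B := by
  intro S _
  refine ⟨h S, ?_⟩
  obtain ⟨b, hb⟩ := h (compl '' S)
  exact ⟨_, isGLB_of_compl hb⟩

/-- A homomorphism preserving all existing joins preserves all existing meets. -/
theorem isMHom_of_lub {A B : Type} [BooleanAlgebra A] [BooleanAlgebra B]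
    (h : BoundedLatticeHom A B) (hl : ∀ (S : Set A) (a : A), IsLUB S a → IsLUB (h '' S) (h a))
    (m : Cardinal.{0}) : IsMHom m h := by
  intro S _ a
  refine ⟨hl S a, fun hg => ?_⟩
  have h1 : IsLUB (compl '' S) aᶜ := by
    rw [← isGLB_compl_iff, compl_compl, image_image]
    simpa using hg
  have h2 := hl _ _ h1
  have h3 : h '' (compl '' S) = compl '' (h '' S) := by
    rw [image_image, image_image]
    apply image_congr
    intro x _
    exact map_compl' h x
  rw [h3, map_compl' h] at h2
  have h4 := isGLB_of_compl h2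
  rwa [compl_compl] at h4

/-- The Boolean algebra of regular open subsets of `Y`. -/
def RO (Y : Type) [TopologicalSpace Y] : Type := Regular (Opens Y)

noncomputable instance (Y : Type) [TopologicalSpace Y] : BooleanAlgebra (RO Y) :=
  inferInstanceAs (BooleanAlgebra (Regular (Opens Y)))

variable {X Y : Type} [TopologicalSpace X] [TopologicalSpace Y]

/-- The underlying open set. -/
def RO.op (r : RO Y) : Opens Y := Regular.val r

theorem RO.op_inj {r s : RO Y} (h : r.op = s.op) : r = s := coe_injective h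

theorem RO.op_le {r s : RO Y} : r.op ≤ s.op ↔ r ≤ s := Iff.rfl

theorem RO.op_bot : (⊥ : RO Y).op = ⊥ := rfl

theorem RO.op_reg (r : RO Y) : (r.op)ᶜᶜ = r.op := (Regular.prop r).eq

theorem RO.exists_isLUB (S : Set (RO Y)) : ∃ b, IsLUB S b := ⟨_, regular_isLUB (α := Opens Y) S⟩

theorem opens_eq_bot_iff (U : Opens X) : U = ⊥ ↔ ¬ (U : Set X).Nonempty := by
  rw [Set.not_nonempty_iff_eq_empty]
  constructor
  · rintro rfl; rfl
  · intro h; exact Opens.ext h

theorem exists_witness {U : Opens Y} {r : RO Y} (h : ¬ U ≤ r.op) :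
    ∃ W : Opens Y, W ≤ U ∧ (W : Set Y).Nonempty ∧ Disjoint W r.op := by
  refine ⟨U ⊓ (r.op)ᶜ, inf_le_left, ?_, ?_⟩
  · by_contra hn
    have : U ⊓ (r.op)ᶜ = ⊥ := (opens_eq_bot_iff _).2 hn
    apply h
    have hd : Disjoint U (r.op)ᶜ := disjoint_iff.2 this
    have := le_compl_iff_disjoint_right.2 hd
    rwa [r.op_reg] at this
  · exact (disjoint_compl_left).mono_left inf_le_right

/-- The clopen set `a` pulled back to an open set. -/
def pull (f : C(Y, X)) (a : Clopens X) : Opens Y :=
  ⟨f ⁻¹' (a : Set X), a.isOpen.preimage f.continuous⟩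

theorem mem_pull (f : C(Y, X)) (a : Clopens X) (y : Y) : y ∈ pull f a ↔ f y ∈ a := Iff.rfl

theorem cl_mem_sup (a b : Clopens X) (x : X) : x ∈ a ⊔ b ↔ x ∈ a ∨ x ∈ b := Iff.rfl
theorem cl_mem_inf (a b : Clopens X) (x : X) : x ∈ a ⊓ b ↔ x ∈ a ∧ x ∈ b := Iff.rfl
theorem cl_mem_compl (a : Clopens X) (x : X) : x ∈ aᶜ ↔ ¬ x ∈ a := Iff.rfl
theorem cl_mem_top (x : X) : x ∈ (⊤ : Clopens X) ↔ True := Iff.rfl
theorem cl_mem_bot (x : X) : x ∈ (⊥ : Clopens X) ↔ False := Iff.rfl

theorem pull_isCompl (f : C(Y, X)) (a : Clopens X) : IsCompl (pull f a) (pull f aᶜ) := by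
  constructor
  · rw [disjoint_iff]
    ext y
    simp only [Opens.coe_inf, mem_inter_iff, SetLike.mem_coe, mem_pull, cl_mem_compl,
      Opens.coe_bot, mem_empty_iff_false]
    tauto
  · rw [codisjoint_iff]
    ext y
    simp only [Opens.coe_sup, mem_union, SetLike.mem_coe, mem_pull, cl_mem_compl,
      Opens.coe_top, mem_univ]
    tauto

theorem pull_regular (f : C(Y, X)) (a : Clopens X) : Heyting.IsRegular (pull f a) := by
  have h := pull_isCompl f a
  unfold Heyting.IsRegular
  rw [h.compl_eq, h.symm.compl_eq]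

theorem pull_sup (f : C(Y, X)) (a b : Clopens X) : pull f (a ⊔ b) = pull f a ⊔ pull f b := by
  ext y
  exact Iff.rfl

theorem pull_inf (f : C(Y, X)) (a b : Clopens X) : pull f (a ⊓ b) = pull f a ⊓ pull f b := by
  ext y
  exact Iff.rfl

/-- The pulled back clopen set as a regular open set. -/
def embFun (f : C(Y, X)) (a : Clopens X) : RO Y := (⟨pull f a, pull_regular f a⟩ : Regular (Opens Y))

theorem op_embFun (f : C(Y, X)) (a : Clopens X) : (embFun f a).op = pull f a := rfl

/-- Clopen sets pulled back along a continuous map, as a Boolean homomorphism into the algebra of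
regular open sets. -/
def emb (f : C(Y, X)) : BoundedLatticeHom (Clopens X) (RO Y) where
  toFun := embFun f
  map_sup' a b := by
    apply RO.op_inj
    change pull f (a ⊔ b) = (pull f a ⊔ pull f b)ᶜᶜ
    rw [← pull_sup, (pull_regular f (a ⊔ b)).eq]
  map_inf' a b := by
    apply RO.op_inj
    exact pull_inf f a b
  map_top' := by
    apply RO.op_inj
    change pull f ⊤ = ⊤
    ext y
    exact Iff.rfl
  map_bot' := by
    apply RO.op_inj
    change pull f ⊥ = ⊥
    ext y
    exact Iff.rfl

theorem op_emb (f : C(Y, X)) (a : Clopens X) : (emb f a).op = pull f a := rfl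

/-- Zero-dimensionality: every nonempty open set contains a nonempty clopen set. -/
def HasPi (X : Type) [TopologicalSpace X] : Prop :=
  ∀ U : Set X, IsOpen U → U.Nonempty → ∃ c : Clopens X, c ≠ ⊥ ∧ (c : Set X) ⊆ U

/-- For a continuous open map, `emb` preserves all existing joins. -/
theorem emb_isLUB (hX : HasPi X) (f : C(Y, X)) (hf : IsOpenMap f) (S : Set (Clopens X))
    (a : Clopens X) (ha : IsLUB S a) : IsLUB (emb f '' S) (emb f a) := by
  constructor
  · rintro _ ⟨s, hs, rfl⟩
    exact OrderHomClass.mono (emb f) (ha.1 hs)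
  · intro r hr
    rw [← RO.op_le]
    by_contra hn
    obtain ⟨W, hWa, hWn, hWd⟩ := exists_witness hn
    obtain ⟨c, hc, hcW⟩ := hX (f '' W) (hf W W.isOpen) (hWn.image f)
    have hca : c ≤ a := by
      intro x hx
      obtain ⟨y, hy, rfl⟩ := hcW hx
      exact hWa hy
    have hcs : ∀ s ∈ S, s ≤ a \ c := by
      intro s hs
      rw [le_sdiff]
      refine ⟨ha.1 hs, ?_⟩
      rw [disjoint_iff]
      ext x
      simp only [Clopens.coe_inf, Clopens.coe_bot, mem_inter_iff, mem_empty_iff_false, iff_false,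
        SetLike.mem_coe]
      rintro ⟨hxs, hxc⟩
      obtain ⟨y, hy, rfl⟩ := hcW hxc
      have h1 : y ∈ (emb f s).op := hxs
      have h2 : y ∈ r.op := (RO.op_le.2 (hr ⟨s, hs, rfl⟩)) h1
      have h3 : y ∈ W ⊓ r.op := ⟨hy, h2⟩
      rw [disjoint_iff.1 hWd] at h3
      exact h3
    have h1 := ha.2 hcs
    have h2 : c ≤ a \ c := hca.trans h1
    rw [le_sdiff] at h2
    exact hc (disjoint_self.1 h2.2)

/-- Every regular open set is the join of the members of a pi-base below it. -/
theorem isLUB_of_pi (D : Set (RO Y))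
    (hD : ∀ W : Opens Y, (W : Set Y).Nonempty → ∃ d ∈ D, d ≠ ⊥ ∧ d.op ≤ W)
    (b : RO Y) : IsLUB {d | d ∈ D ∧ d ≤ b} b := by
  constructor
  · rintro d ⟨_, hd⟩; exact hd
  · intro r hr
    rw [← RO.op_le]
    by_contra hn
    obtain ⟨W, hWb, hWn, hWd⟩ := exists_witness hn
    obtain ⟨d, hd, hd0, hdW⟩ := hD W hWn
    have h1 : d ≤ b := RO.op_le.1 (hdW.trans hWb)
    have h2 : d.op ≤ r.op := RO.op_le.2 (hr ⟨hd, h1⟩)
    apply hd0
    apply RO.op_inj
    rw [RO.op_bot]
    exact disjoint_self.1 (hWd.mono hdW h2)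

end Q16.BProd
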