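import Pool.Agent.Q16.BProd.Reg

/-!
# The two-factor example
-/

open TopologicalSpace Heyting Heyting.Regular Set Cardinal

noncomputable section

namespace Q16.BProd

/-- The Cantor space. -/
abbrev X : Type := ℕ → Bool

/-- The (countable, atomless) algebra of clopen subsets of the Cantor space. -/
abbrev A : Type := Clopens X

/-- The clopen set of all `x` with `x n = ε`. -/
def cyl (n : ℕ) (ε : Bool) : A := ⟨{x | x n = ε}, by
  have : Continuous (fun x : X => x n) := continuous_apply n
  exact (isClopen_discrete {ε}).preimage this⟩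

theorem mem_cyl (n : ℕ) (ε : Bool) (x : X) : x ∈ cyl n ε ↔ x n = ε := Iff.rfl

theorem hasPi_X : HasPi X := by
  intro U hU hne
  obtain ⟨x, hx⟩ := hne
  have hb : IsTopologicalBasis {s : Set X | IsClopen s} := isTopologicalBasis_isClopen
  obtain ⟨v, hv, hxv, hvU⟩ := hb.exists_subset_of_mem_open hx hU
  refine ⟨⟨v, hv⟩, ?_, hvU⟩
  intro h
  have : x ∈ (⟨v, hv⟩ : A) := hxv
  rw [h] at this
  exact this

instance : Countable A := Clopens.countable_iff_secondCountable.2 inferInstance

/-- Flip the coordinates in `F`. -/
def flipFun (F : Finset ℕ) (x : X) : X := fun n => xor (x n) (decide (n ∈ F))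

theorem flip_flip (F : Finset ℕ) (x : X) : flipFun F (flipFun F x) = x := by
  funext n; simp [flipFun]

theorem continuous_flip (F : Finset ℕ) : Continuous (flipFun F) := by
  apply continuous_pi
  intro n
  have : Continuous (fun b : Bool => xor b (decide (n ∈ F))) := continuous_of_discreteTopology
  exact this.comp (continuous_apply n)

/-- Flipping as a homeomorphism. -/
def flipHomeo (F : Finset ℕ) : X ≃ₜ X where
  toFun := flipFun F
  invFun := flipFun F
  left_inv := flip_flip F
  right_inv := flip_flip F
  continuous_toFun := continuous_flip F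
  continuous_invFun := continuous_flip F

/-- Flipping as a continuous map. -/
def flipMap (F : Finset ℕ) : C(X, X) := ⟨flipFun F, continuous_flip F⟩

/-- Pulling back along a family of continuous maps, as a homomorphism into a power. -/
def piEmb {Γ : Type} (g : Γ → C(X, X)) : BoundedLatticeHom A (Γ → RO X) where
  toFun a := fun γ => emb (g γ) a
  map_sup' a b := by funext γ; exact map_sup (emb (g γ)) a b
  map_inf' a b := by funext γ; exact map_inf (emb (g γ)) a b
  map_top' := by funext γ; exact map_top (emb (g γ))
  map_bot' := by funext γ; exact map_bot (emb (g γ))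

theorem piEmb_isLUB {Γ : Type} (g : Γ → C(X, X)) (hg : ∀ γ, IsOpenMap (g γ)) (S : Set A) (a : A)
    (ha : IsLUB S a) : IsLUB (piEmb g '' S) (piEmb g a) := by
  rw [isLUB_pi]
  intro γ
  have h := emb_isLUB hasPi_X (g γ) (hg γ) S a ha
  rw [image_image]
  exact h

/-- The big algebra of the example. -/
abbrev B : Type := Finset ℕ → RO X

/-- The two embeddings into `B`. -/
def iB : Bool → BoundedLatticeHom A B
  | false => piEmb (fun _ => ContinuousMap.id X)
  | true => piEmb flipMap

/-- The regular open algebra of the square. -/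
abbrev M0 : Type := RO (X × X)

/-- The two embeddings into `M0`. -/
def jM : Bool → BoundedLatticeHom A M0
  | false => emb ⟨Prod.fst, continuous_fst⟩
  | true => emb ⟨Prod.snd, continuous_snd⟩

/-- The element expressing `x_n + y_n = ε`. -/
def E {C : Type} [BooleanAlgebra C] (i : Bool → BoundedLatticeHom A C) (n : ℕ) (ε : Bool) : C :=
  (i false (cyl n false) ⊓ i true (cyl n ε)) ⊔ (i false (cyl n true) ⊓ i true (cyl n (!ε)))

/-- The unit at `F`. -/
def one (F : Finset ℕ) : B := fun F' => if F' = F then ⊤ else ⊥

theorem emb_flip_cyl (F : Finset ℕ) (n : ℕ) (ε : Bool) :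
    emb (flipMap F) (cyl n ε) = emb (ContinuousMap.id X) (cyl n (xor ε (decide (n ∈ F)))) := by
  apply RO.op_inj
  rw [op_emb, op_emb]
  ext x
  simp only [SetLike.mem_coe, mem_pull, mem_cyl]
  change xor (x n) (decide (n ∈ F)) = ε ↔ x n = xor ε (decide (n ∈ F))
  cases x n <;> cases decide (n ∈ F) <;> cases ε <;> simp

theorem cyl_inf_ne (n : ℕ) : cyl n false ⊓ cyl n true = ⊥ := by
  ext x
  simp only [SetLike.mem_coe, cl_mem_inf, mem_cyl, cl_mem_bot]
  cases x n <;> simp

theorem cyl_sup (n : ℕ) : cyl n false ⊔ cyl n true = ⊤ := by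
  ext x
  simp only [SetLike.mem_coe, cl_mem_sup, mem_cyl, cl_mem_top]
  cases x n <;> simp

theorem E_B (n : ℕ) (ε : Bool) (F : Finset ℕ) :
    E iB n ε F = if decide (n ∈ F) = ε then ⊤ else ⊥ := by
  have h : E iB n ε F = (emb (ContinuousMap.id X) (cyl n false) ⊓
      emb (ContinuousMap.id X) (cyl n (xor ε (decide (n ∈ F))))) ⊔
      (emb (ContinuousMap.id X) (cyl n true) ⊓
      emb (ContinuousMap.id X) (cyl n (xor (!ε) (decide (n ∈ F))))) := by
    rw [← emb_flip_cyl, ← emb_flip_cyl]
    rfl
  rw [h, ← map_inf, ← map_inf, ← map_sup]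
  cases hd : decide (n ∈ F) <;> cases ε <;>
    simp [cyl_sup, cyl_inf_ne, inf_comm (cyl n true) (cyl n false)]

theorem isGLB_one (F : Finset ℕ) :
    IsGLB (range fun n => E iB n (decide (n ∈ F))) (one F) := by
  constructor
  · rintro _ ⟨n, rfl⟩ F'
    simp only [one]
    split_ifs with h
    · subst h
      rw [E_B, if_pos rfl]
    · exact bot_le
  · intro c hc F'
    simp only [one]
    split_ifs with h
    · exact le_top
    · have : ∃ n, ¬ (n ∈ F' ↔ n ∈ F) := by
        by_contra hn
        push Not at hn
        exact h (Finset.ext hn)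
      obtain ⟨n, hn⟩ := this
      have h1 := hc ⟨n, rfl⟩ F'
      simp only [] at h1
      rw [E_B, if_neg] at h1
      · exact h1
      · intro h2
        apply hn
        simpa using h2

theorem isLUB_range_one : IsLUB (range one) (⊤ : B) := by
  constructor
  · rintro _ _; exact le_top
  · intro c hc F
    have := hc ⟨F, rfl⟩ F
    simpa [one] using this

end Q16.BProd
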